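import Pool.Agent.W872.MX.StmB

/-! Subtask MX2-MON (14675) of project MX (owner helper872): the limit exists. -/

set_option autoImplicit false

namespace W138.MX

open W872.MX Finset Filter

noncomputable section

open Classical in
/-- adjacency indicator -/
def ind {V : Type} (H : SimpleGraph V) (x y : V) : ℝ := if H.Adj x y then 1 else 0

theorem ind_comm {V : Type} (H : SimpleGraph V) (x y : V) : ind H x y = ind H y x := by
  unfold ind
  by_cases h : H.Adj x y
  · rw [if_pos h, if_pos h.symm]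
  · rw [if_neg h, if_neg (fun h' => h h'.symm)]

theorem ind_self {V : Type} (H : SimpleGraph V) (x : V) : ind H x x = 0 := by
  unfold ind
  simp

theorem two_mul_edges {m : ℕ} (H : SimpleGraph (Fin m)) :
    2 * (H.edgeSet.ncard : ℝ) = ∑ x, ∑ y, ind H x y := by
  classical
  have h1 := H.sum_degrees_eq_twice_card_edges
  have h2 : H.edgeSet.ncard = H.edgeFinset.card := by
    rw [Set.ncard_eq_toFinset_card' H.edgeSet]
    rfl
  have h3 : (2 : ℝ) * (H.edgeSet.ncard : ℝ) = ((∑ v, H.degree v : ℕ) : ℝ) := by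
    rw [h1, h2]; push_cast; ring
  rw [h3, Nat.cast_sum]
  apply Finset.sum_congr rfl
  intro v _
  unfold ind
  rw [Finset.sum_boole]
  congr 1
  rw [← SimpleGraph.card_neighborFinset_eq_degree]
  congr 1
  ext w
  simp

theorem sum_del {n : ℕ} (H : SimpleGraph (Fin (n + 1))) (v : Fin (n + 1)) :
    ∑ x, ∑ y, ind (H.comap v.succAbove) x y =
      (∑ x, ∑ y, ind H x y) - 2 * ∑ y, ind H v y := by
  have h1 : ∑ x, ∑ y, ind H x y = ∑ y, ind H v y +
      ∑ i : Fin n, ∑ y, ind H (v.succAbove i) y := Fin.sum_univ_succAbove _ v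
  have h2 : ∀ i : Fin n, ∑ y, ind H (v.succAbove i) y = ind H (v.succAbove i) v +
      ∑ j : Fin n, ind H (v.succAbove i) (v.succAbove j) := fun i => Fin.sum_univ_succAbove _ v
  have h3 : ∑ y, ind H v y = ∑ i : Fin n, ind H (v.succAbove i) v := by
    rw [Fin.sum_univ_succAbove _ v, ind_self, zero_add]
    exact Finset.sum_congr rfl fun i _ => ind_comm H _ _
  have h4 : ∑ x, ∑ y, ind (H.comap v.succAbove) x y =
      ∑ i : Fin n, ∑ j : Fin n, ind H (v.succAbove i) (v.succAbove j) := rfl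
  rw [h4, h1, Finset.sum_congr rfl (fun i _ => h2 i), Finset.sum_add_distrib, ← h3]
  ring

theorem sum_edges_del {n : ℕ} (H : SimpleGraph (Fin (n + 1))) :
    ∑ v : Fin (n + 1), ((H.comap v.succAbove).edgeSet.ncard : ℝ) =
      ((n : ℝ) - 1) * (H.edgeSet.ncard : ℝ) := by
  have h1 : 2 * ∑ v : Fin (n + 1), ((H.comap v.succAbove).edgeSet.ncard : ℝ) =
      2 * (((n : ℝ) - 1) * (H.edgeSet.ncard : ℝ)) := by
    rw [Finset.mul_sum]
    have h2 : ∀ v : Fin (n + 1), 2 * ((H.comap v.succAbove).edgeSet.ncard : ℝ) =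
        2 * (H.edgeSet.ncard : ℝ) - 2 * ∑ y, ind H v y := by
      intro v
      rw [two_mul_edges, sum_del, two_mul_edges]
    have h3 : ∑ x : Fin (n + 1), 2 * ∑ y, ind H x y = 2 * (2 * (H.edgeSet.ncard : ℝ)) := by
      rw [← Finset.mul_sum, two_mul_edges]
    rw [Finset.sum_congr rfl (fun v _ => h2 v), Finset.sum_sub_distrib, h3,
      Finset.sum_const, Finset.card_univ, Fintype.card_fin, nsmul_eq_mul]
    push_cast
    ring
  linarith

/-- deletion of a vertex -/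
def del {n : ℕ} (G : MG (Fin (n + 1))) (v : Fin (n + 1)) : MG (Fin n) :=
  ⟨G.red.comap v.succAbove, G.blue.comap v.succAbove⟩

theorem sum_weight_del {n : ℕ} (G : MG (Fin (n + 1))) (p : ℝ) :
    ∑ v, (del G v).weight p = ((n : ℝ) - 1) * G.weight p := by
  unfold MG.weight del
  rw [Finset.sum_add_distrib, ← Finset.mul_sum, ← Finset.mul_sum]
  simp only
  rw [sum_edges_del, sum_edges_del]
  ring

theorem del_contains {n h : ℕ} (G : MG (Fin (n + 1))) (v : Fin (n + 1)) (R : SimpleGraph (Fin h))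
    (hc : Contains (del G v) R) : Contains G R := by
  obtain ⟨f, hf⟩ := hc
  refine ⟨f.trans v.succAboveEmb, fun x y => ⟨fun hxy => ?_, fun hxy => ?_⟩⟩
  · exact (hf x y).1 hxy
  · exact (hf x y).2 hxy

theorem edges_le {m : ℕ} (H : SimpleGraph (Fin m)) :
    (H.edgeSet.ncard : ℝ) ≤ (m : ℝ) * m := by
  have h1 := two_mul_edges H
  have h2 : ∑ x, ∑ y, ind H x y ≤ (m : ℝ) * m := by
    calc ∑ x, ∑ y, ind H x y ≤ ∑ _x : Fin m, ∑ _y : Fin m, (1 : ℝ) := by
          apply Finset.sum_le_sum; intro x _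
          apply Finset.sum_le_sum; intro y _
          unfold ind
          split_ifs <;> norm_num
      _ = (m : ℝ) * m := by simp
  have h3 : (0 : ℝ) ≤ (H.edgeSet.ncard : ℝ) := Nat.cast_nonneg _
  linarith

theorem weight_nonneg {m : ℕ} (G : MG (Fin m)) {p : ℝ} (h0 : 0 ≤ p) (h1 : p ≤ 1) :
    0 ≤ G.weight p := by
  unfold MG.weight
  have : 0 ≤ 1 - p := by linarith
  positivity

theorem weight_le {m : ℕ} (G : MG (Fin m)) {p : ℝ} (h0 : 0 ≤ p) (h1 : p ≤ 1) :
    G.weight p ≤ (m : ℝ) * m := by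
  unfold MG.weight
  have h2 := mul_le_mul_of_nonneg_left (edges_le G.red) h0
  have h3 := mul_le_mul_of_nonneg_left (edges_le G.blue) (by linarith : 0 ≤ 1 - p)
  linarith

theorem ex_bdd (p : ℝ) (n : ℕ) {h : ℕ} (R : SimpleGraph (Fin h)) (h0 : 0 ≤ p) (h1 : p ≤ 1) :
    BddAbove {w : ℝ | ∃ G : MG (Fin n), ¬ Contains G R ∧ w = G.weight p} := by
  refine ⟨(n : ℝ) * n, ?_⟩
  rintro w ⟨G, -, rfl⟩
  exact weight_le G h0 h1

theorem ex_nonempty (p : ℝ) (n : ℕ) {h : ℕ} (R : SimpleGraph (Fin h)) (hh : 2 ≤ h) :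
    {w : ℝ | ∃ G : MG (Fin n), ¬ Contains G R ∧ w = G.weight p}.Nonempty := by
  refine ⟨_, ⟨⊥, ⊥⟩, ?_, rfl⟩
  rintro ⟨f, hf⟩
  have h01 : (⟨0, by omega⟩ : Fin h) ≠ ⟨1, by omega⟩ := by
    intro e
    have := congrArg Fin.val e
    simp at this
  by_cases hR : R.Adj ⟨0, by omega⟩ ⟨1, by omega⟩
  · exact (hf _ _).1 hR
  · exact (hf _ _).2 (by rw [SimpleGraph.compl_adj]; exact ⟨h01, hR⟩)

theorem ex_nonneg (p : ℝ) (n : ℕ) {h : ℕ} (R : SimpleGraph (Fin h)) (h0 : 0 ≤ p) (h1 : p ≤ 1) :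
    0 ≤ ex p n R := by
  apply Real.sSup_nonneg
  rintro w ⟨G, -, rfl⟩
  exact weight_nonneg G h0 h1

theorem ex_step (p : ℝ) (n : ℕ) {h : ℕ} (R : SimpleGraph (Fin h)) (hh : 2 ≤ h) (h0 : 0 ≤ p)
    (h1 : p ≤ 1) (hn : 2 ≤ n) :
    ((n : ℝ) - 1) * ex p (n + 1) R ≤ ((n : ℝ) + 1) * ex p n R := by
  have hn1 : (0 : ℝ) < (n : ℝ) - 1 := by
    have : (2 : ℝ) ≤ n := by exact_mod_cast hn
    linarith
  have key : ex p (n + 1) R ≤ ((n : ℝ) + 1) * ex p n R / ((n : ℝ) - 1) := by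
    apply csSup_le (ex_nonempty p (n + 1) R hh)
    rintro w ⟨G, hG, rfl⟩
    rw [le_div_iff₀ hn1, mul_comm, ← sum_weight_del]
    calc ∑ v, (del G v).weight p ≤ ∑ _v : Fin (n + 1), ex p n R := by
          apply Finset.sum_le_sum
          intro v _
          exact le_csSup (ex_bdd p n R h0 h1) ⟨del G v, fun hc => hG (del_contains G v R hc), rfl⟩
      _ = ((n : ℝ) + 1) * ex p n R := by
          rw [Finset.sum_const, Finset.card_univ, Fintype.card_fin, nsmul_eq_mul]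
          push_cast
          ring
  rw [le_div_iff₀ hn1] at key
  linarith

theorem main : W872.MX.PartMON := by
  intro h R p hh h0 h1
  let b : ℕ → ℝ := fun n => ex p (n + 2) R / ((n + 2).choose 2 : ℝ)
  have hb : Antitone b := by
    apply antitone_nat_of_succ_le
    intro n
    have hs := ex_step p (n + 2) R hh h0 h1 (by omega)
    have c1 : ((n + 2).choose 2 : ℝ) = ((n : ℝ) + 2) * ((n : ℝ) + 1) / 2 := by
      rw [Nat.cast_choose_two]; push_cast; ring
    have c2 : ((n + 1 + 2).choose 2 : ℝ) = ((n : ℝ) + 3) * ((n : ℝ) + 2) / 2 := by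
      rw [Nat.cast_choose_two]; push_cast; ring
    have e : ex p (n + 1 + 2) R = ex p (n + 2 + 1) R := rfl
    simp only [b]
    rw [c1, c2, div_le_div_iff₀ (by positivity) (by positivity), e]
    push_cast at hs
    have hn2 : (0 : ℝ) ≤ ((n : ℝ) + 2) / 2 := by positivity
    have h3 := mul_le_mul_of_nonneg_left hs hn2
    nlinarith [h3]
  have hbdd : BddBelow (Set.range b) := by
    refine ⟨0, ?_⟩
    rintro _ ⟨n, rfl⟩
    exact div_nonneg (ex_nonneg p _ R h0 h1) (Nat.cast_nonneg _)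
  refine ⟨⨅ i, b i, ?_⟩
  have ht := tendsto_atTop_ciInf hb hbdd
  exact (tendsto_add_atTop_iff_nat 2).1 ht

end

end W138.MX
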